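import Mathlib

/-!
# Stringy E-functions of klt pairs and flips: definitions
-/

set_option autoImplicit false

open Polynomial

namespace Pool.Agent.V7H36.NR

/-- The strata of a simple normal crossing divisor `⋃ E j`, `j ∈ ι`, with prime components on a smooth
variety `Y`: the polynomial `P J` is the value `E(Z; t, t)` at `u = v = t` of the `E`-polynomial of the
locally closed subvariety `Z`, the set of the points which are in `E j` if and only if `j ∈ J`. It is
zero if `Z` is empty; otherwise its degree is twice the dimension of `Z` and its leading coefficient is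
the number of the components of maximal dimension. The stratum of `J = {j}` is an open dense subset of
`E j`. -/
structure Strata where
  /-- the prime divisors -/
  ι : Type
  [fin : Fintype ι]
  /-- the polynomials of the strata -/
  P : Finset ι → ℤ[X]
  lead : ∀ J, P J = 0 ∨ 0 < (P J).leadingCoeff
  even : ∀ J, Even (P J).natDegree
  single : ∀ j, P {j} ≠ 0

attribute [instance] Strata.fin

/-- Batyrev's formula for the stringy `E`-function at `u = v = t`, for the discrepancies `a j`:
`∑ J, E(E_J°; t, t) ∏_{j ∈ J} (t ^ 2 - 1) / (t ^ (2 (a j + 1)) - 1)`. -/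
noncomputable def stringy (s : Strata) (a : s.ι → ℝ) (t : ℝ) : ℝ :=
  ∑ J : Finset s.ι, ((s.P J).map (Int.castRingHom ℝ)).eval t *
    ∏ j ∈ J, (t ^ 2 - 1) / (t ^ (2 * (a j + 1)) - 1)

/-- Normal `ℚ`-factorial complex varieties `X`, projective over a fixed variety `S`, with their real
divisors, their isomorphisms (over the field of complex numbers) and the small birational maps over `S`
(isomorphisms in codimension one). -/
structure Birational where
  /-- the varieties -/
  V : Type
  /-- the real vector space of the divisors of `X` -/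
  D : V → Type
  [group : ∀ X, AddCommGroup (D X)]
  [module : ∀ X, Module ℝ (D X)]
  /-- the isomorphisms -/
  Iso : V → V → Type
  /-- the image of a divisor under an isomorphism -/
  push : ∀ {X Y : V}, Iso X Y → D X → D Y
  /-- the small birational maps -/
  Small : V → V → Type
  /-- the identity -/
  id : ∀ X : V, Small X X
  /-- the composition -/
  comp : ∀ {X Y Z : V}, Small X Y → Small Y Z → Small X Z
  /-- the strict transform of a divisor -/
  strict : ∀ {X Y : V}, Small X Y → D X → D Y
  /-- `K_X` is a Cartier divisor -/
  Gorenstein : V → Prop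
  /-- `(X, Δ)` is a klt pair -/
  Klt : ∀ X : V, D X → Prop
  /-- the small birational map is a `(K_X + Δ)`-flip -/
  IsFlip : ∀ {X Y : V}, Small X Y → D X → Prop
  /-- a set of klt pairs is contained in a bounded family, with boundary coefficients in a finite set -/
  Bounded : Set (Σ X, D X) → Prop
  /-- the stringy `E`-function `E_st(X, Δ; t, t)` of a klt pair, for `t > 1` -/
  E : ∀ X : V, D X → ℝ → ℝ

attribute [instance] Birational.group Birational.module

variable (B : Birational)

/-- Known properties. -/
structure IsBirational : Prop where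
  push_add : ∀ {X Y : B.V} (φ : B.Iso X Y) (a b : B.D X), B.push φ (a + b) = B.push φ a + B.push φ b
  push_smul : ∀ {X Y : B.V} (φ : B.Iso X Y) (c : ℝ) (a : B.D X), B.push φ (c • a) = c • B.push φ a
  strict_add : ∀ {X Y : B.V} (f : B.Small X Y) (a b : B.D X),
    B.strict f (a + b) = B.strict f a + B.strict f b
  strict_smul : ∀ {X Y : B.V} (f : B.Small X Y) (c : ℝ) (a : B.D X),
    B.strict f (c • a) = c • B.strict f a
  strict_id : ∀ (X : B.V) (a : B.D X), B.strict (B.id X) a = a
  strict_comp : ∀ {X Y Z : B.V} (f : B.Small X Y) (g : B.Small Y Z) (a : B.D X),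
    B.strict (B.comp f g) a = B.strict g (B.strict f a)
  /-- flips of klt pairs are klt -/
  klt_flip : ∀ {X Y : B.V} (f : B.Small X Y) (Δ : B.D X), B.Klt X Δ → B.IsFlip f Δ →
    B.Klt Y (B.strict f Δ)
  /-- isomorphic pairs have the same stringy `E`-function -/
  E_iso : ∀ {X Y : B.V} (φ : B.Iso X Y) (Δ : B.D X), B.Klt X Δ → ∀ t, 1 < t →
    B.E Y (B.push φ Δ) t = B.E X Δ t
  /-- a flip has a common log resolution (Hironaka). The stringy `E`-functions are given by the formula
  of Batyrev. The discrepancies are larger than `-1` and do not decrease, and one of them increases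
  (negativity lemma). They are integers if the boundary is zero and the canonical divisors are
  Cartier divisors. -/
  flip : ∀ {X Y : B.V} (f : B.Small X Y) (Δ : B.D X), B.Klt X Δ → B.IsFlip f Δ →
    ∃ (s : Strata) (a a' : s.ι → ℝ), (∀ j, -1 < a j ∧ a j ≤ a' j) ∧ (∃ j, a j < a' j) ∧
      (∀ t, 1 < t → B.E X Δ t = stringy s a t) ∧
      (∀ t, 1 < t → B.E Y (B.strict f Δ) t = stringy s a' t) ∧
      (Δ = 0 → B.Gorenstein X → B.Gorenstein Y → ∀ j, (∃ n : ℤ, a j = n) ∧ ∃ n : ℤ, a' j = n)
  /-- only finitely many functions are the stringy `E`-functions of the pairs in a bounded family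
  (simultaneous log resolutions over the strata of a stratification of the base, on which the
  `E`-polynomials are constant) -/
  bounded : ∀ F : Set (Σ X, B.D X), B.Bounded F →
    {e : Set.Ioi (1 : ℝ) → ℝ | ∃ A ∈ F, ∀ t, e t = B.E A.1 A.2 t}.Finite

/-- The variety `X` is Gorenstein with stringy Betti numbers: its stringy `E`-function is a polynomial
`Q` whose coefficients of even degree are not negative. This is the case if `X` is projective (over the
field of complex numbers) and smooth or, more generally, has a crepant resolution `W`, because then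
`E_st(X; t, t) = ∑ (-1)^k b_k(W) t^k` (Batyrev), or if `X` is projective with Gorenstein quotient
singularities (Batyrev, Yasuda: the orbifold cohomology). -/
def HasStringyBettiNumbers (X : B.V) : Prop :=
  B.Gorenstein X ∧ ∃ Q : ℤ[X], (∀ k, 0 ≤ Q.coeff (2 * k)) ∧
    ∀ t : ℝ, 1 < t → B.E X 0 t = (Q.map (Int.castRingHom ℝ)).eval t

/-- `X 0 ⇢ X 1 ⇢ ⋯ ⇢ X L` is a sequence of `(K + Δ)`-flips starting from the klt pair `(X 0, Δ 0)`. -/
structure IsSequence (L : ℕ) (X : ℕ → B.V) (Δ : ∀ i, B.D (X i)) (f : ∀ i, B.Small (X i) (X (i + 1))) :
    Prop where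
  klt : B.Klt (X 0) (Δ 0)
  step : ∀ i < L, Δ (i + 1) = B.strict (f i) (Δ i)
  flip : ∀ i < L, B.IsFlip (f i) (Δ i)

end Pool.Agent.V7H36.NR
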