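import Mathlib
import Pool.Agent.V7H36.NR.Defs

/-!
# Stringy E-functions decrease in flips
-/

set_option autoImplicit false

open Polynomial Filter

namespace Pool.Agent.V7H36.NR

theorem eventually_pos {P : ℝ[X]} (h : 0 < P.leadingCoeff) : ∀ᶠ t in atTop, 0 < P.eval t := by
  rcases lt_or_ge 0 P.degree with h1 | h1
  · exact (tendsto_atTop_of_leadingCoeff_nonneg P h1 h.le).eventually_gt_atTop 0
  · rw [eq_C_of_degree_le_zero h1]
    refine Eventually.of_forall fun t => ?_
    rw [eval_C]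
    rw [eq_C_of_degree_le_zero h1, leadingCoeff_C] at h
    exact h

theorem eventually_pos' {P : ℤ[X]} (h : 0 < P.leadingCoeff) :
    ∀ᶠ t in atTop, 0 < (P.map (Int.castRingHom ℝ)).eval t := by
  refine eventually_pos ?_
  rw [leadingCoeff_map_of_injective (Int.castRingHom ℝ).injective_int]
  simpa using h

/-- The local factor. -/
theorem factor_pos {t a : ℝ} (ht : 1 < t) (ha : -1 < a) :
    0 < (t ^ 2 - 1) / (t ^ (2 * (a + 1)) - 1) := by
  have h1 : (1 : ℝ) < t ^ 2 := one_lt_pow₀ ht two_ne_zero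
  have h2 : (1 : ℝ) < t ^ (2 * (a + 1)) := Real.one_lt_rpow ht (by linarith)
  exact div_pos (by linarith) (by linarith)

theorem factor_lt {t a a' : ℝ} (ht : 1 < t) (ha : -1 < a) (h : a < a') :
    (t ^ 2 - 1) / (t ^ (2 * (a' + 1)) - 1) < (t ^ 2 - 1) / (t ^ (2 * (a + 1)) - 1) := by
  have h1 : (1 : ℝ) < t ^ 2 := one_lt_pow₀ ht two_ne_zero
  have h2 : (1 : ℝ) < t ^ (2 * (a + 1)) := Real.one_lt_rpow ht (by linarith)
  have h3 : t ^ (2 * (a + 1)) < t ^ (2 * (a' + 1)) := Real.rpow_lt_rpow_of_exponent_lt ht (by linarith)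
  exact div_lt_div_of_pos_left (by linarith) (by linarith) (by linarith)

theorem factor_le {t a a' : ℝ} (ht : 1 < t) (ha : -1 < a) (h : a ≤ a') :
    (t ^ 2 - 1) / (t ^ (2 * (a' + 1)) - 1) ≤ (t ^ 2 - 1) / (t ^ (2 * (a + 1)) - 1) := by
  rcases h.eq_or_lt with rfl | h
  · exact le_rfl
  · exact (factor_lt ht ha h).le

/-- The stringy function decreases if the discrepancies increase. -/
theorem stringy_lt (s : Strata) (a a' : s.ι → ℝ) (h : ∀ j, -1 < a j ∧ a j ≤ a' j)
    (h' : ∃ j, a j < a' j) : ∀ᶠ t in atTop, stringy s a' t < stringy s a t := by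
  obtain ⟨j₀, hj₀⟩ := h'
  have h1 : ∀ᶠ t in atTop, ∀ J : Finset s.ι, 0 ≤ ((s.P J).map (Int.castRingHom ℝ)).eval t := by
    rw [eventually_all]
    intro J
    rcases s.lead J with hJ | hJ
    · rw [hJ]
      refine Eventually.of_forall fun t => ?_
      simp
    · exact (eventually_pos' hJ).mono fun t ht => ht.le
  have h2 : ∀ᶠ t in atTop, 0 < ((s.P {j₀}).map (Int.castRingHom ℝ)).eval t :=
    eventually_pos' ((s.lead {j₀}).resolve_left (s.single j₀))
  filter_upwards [h1, h2, eventually_gt_atTop 1] with t k1 k2 ht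
  refine Finset.sum_lt_sum (fun J _ => ?_) ⟨{j₀}, Finset.mem_univ _, ?_⟩
  · refine mul_le_mul_of_nonneg_left ?_ (k1 J)
    refine Finset.prod_le_prod (fun j _ => ?_) fun j _ => factor_le ht (h j).1 (h j).2
    exact (factor_pos ht ((h j).1.trans_le (h j).2)).le
  · refine mul_lt_mul_of_pos_left ?_ k2
    rw [Finset.prod_singleton, Finset.prod_singleton]
    exact factor_lt ht (h j₀).1 hj₀

variable {B : Birational}

theorem flip_lt (hB : IsBirational B) {X Y : B.V} (f : B.Small X Y) (Δ : B.D X) (hk : B.Klt X Δ)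
    (hf : B.IsFlip f Δ) : ∀ᶠ t in atTop, B.E Y (B.strict f Δ) t < B.E X Δ t := by
  obtain ⟨s, a, a', h1, h2, h3, h4, -⟩ := hB.flip f Δ hk hf
  filter_upwards [stringy_lt s a a' h1 h2, eventually_gt_atTop 1] with t ht ht1
  rw [h3 t ht1, h4 t ht1]
  exact ht

variable {L : ℕ} {X : ℕ → B.V} {Δ : ∀ i, B.D (X i)} {f : ∀ i, B.Small (X i) (X (i + 1))}

theorem IsSequence.klt_all (hB : IsBirational B) (h : IsSequence B L X Δ f) :
    ∀ i ≤ L, B.Klt (X i) (Δ i)
  | 0, _ => h.klt
  | i + 1, hi => by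
    rw [h.step i (by omega)]
    exact hB.klt_flip _ _ (h.klt_all hB i (by omega)) (h.flip i (by omega))

theorem IsSequence.lt (hB : IsBirational B) (h : IsSequence B L X Δ f) {i j : ℕ} (hij : i < j)
    (hj : j ≤ L) : ∀ᶠ t in atTop, B.E (X j) (Δ j) t < B.E (X i) (Δ i) t := by
  induction j, hij using Nat.le_induction with
  | base =>
    rw [h.step i (by omega)]
    exact flip_lt hB _ _ (h.klt_all hB i (by omega)) (h.flip i (by omega))
  | succ j hij ih =>
    filter_upwards [ih (by omega), flip_lt hB (f j) (Δ j) (h.klt_all hB j (by omega))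
      (h.flip j (by omega))] with t h1 h2
    rw [h.step j (by omega)]
    exact h2.trans h1

/-- No return. -/
theorem IsSequence.not_iso (hB : IsBirational B) (h : IsSequence B L X Δ f) {i j : ℕ} (hij : i < j)
    (hj : j ≤ L) (φ : B.Iso (X i) (X j)) : B.push φ (Δ i) ≠ Δ j := by
  intro he
  obtain ⟨t, h1, h2⟩ := ((h.lt hB hij hj).and (eventually_gt_atTop 1)).exists
  rw [← he, hB.E_iso φ _ (h.klt_all hB i (by omega)) t h2] at h1
  exact lt_irrefl _ h1

/-- Bounded families. -/
theorem no_infinite (hB : IsBirational B) (F : Set (Σ X, B.D X)) (hF : B.Bounded F)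
    (h : ∀ L, IsSequence B L X Δ f) (hX : ∀ i, (⟨X i, Δ i⟩ : Σ X, B.D X) ∈ F) : False := by
  have hfin := hB.bounded F hF
  have hinj : Function.Injective fun i : ℕ => fun t : Set.Ioi (1 : ℝ) => B.E (X i) (Δ i) t := by
    intro i j hij
    by_contra hne
    wlog hlt : i < j generalizing i j with H
    · exact H hij.symm (Ne.symm hne) (lt_of_le_of_ne (not_lt.1 hlt) (Ne.symm hne))
    obtain ⟨t, h1, h2⟩ := (((h j).lt hB hlt le_rfl).and (eventually_gt_atTop 1)).exists
    exact h1.ne' (congrFun hij ⟨t, h2⟩)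
  exact (Set.infinite_range_of_injective hinj)
    (hfin.subset (by rintro _ ⟨i, rfl⟩; exact ⟨_, hX i, fun t => rfl⟩))

/-- The composition of the first `i` maps. -/
def total (X : ℕ → B.V) (f : ∀ i, B.Small (X i) (X (i + 1))) : ∀ i, B.Small (X 0) (X i)
  | 0 => B.id _
  | i + 1 => B.comp (total X f i) (f i)

theorem strict_sum (hB : IsBirational B) {X Y : B.V} (g : B.Small X Y) {r : ℕ} (c : Fin r → ℝ)
    (b : Fin r → B.D X) : B.strict g (∑ k, c k • b k) = ∑ k, c k • B.strict g (b k) := by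
  let T : B.D X →ₗ[ℝ] B.D Y :=
    { toFun := B.strict g, map_add' := hB.strict_add g, map_smul' := hB.strict_smul g }
  change T (∑ k, c k • b k) = ∑ k, c k • T (b k)
  rw [map_sum]
  exact Finset.sum_congr rfl fun k _ => T.map_smul _ _

theorem push_sum (hB : IsBirational B) {X Y : B.V} (g : B.Iso X Y) {r : ℕ} (c : Fin r → ℝ)
    (b : Fin r → B.D X) : B.push g (∑ k, c k • b k) = ∑ k, c k • B.push g (b k) := by
  let T : B.D X →ₗ[ℝ] B.D Y :=
    { toFun := B.push g, map_add' := hB.push_add g, map_smul' := hB.push_smul g }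
  change T (∑ k, c k • b k) = ∑ k, c k • T (b k)
  rw [map_sum]
  exact Finset.sum_congr rfl fun k _ => T.map_smul _ _

theorem IsSequence.total_eq (hB : IsBirational B) (h : IsSequence B L X Δ f) :
    ∀ i ≤ L, Δ i = B.strict (total X f i) (Δ 0)
  | 0, _ => (hB.strict_id _ _).symm
  | i + 1, hi => by
    rw [h.step i (by omega), h.total_eq hB i (by omega)]
    exact (hB.strict_comp _ _ _).symm

end Pool.Agent.V7H36.NR
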