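import Mathlib
import Pool.Agent.V7H36.NR.Main

/-!
# Flips between varieties with stringy Betti numbers
-/

set_option autoImplicit false

open Polynomial Filter Topology

namespace Pool.Agent.V7H36.NR

/-- The function has an even leading exponent and a positive leading coefficient. -/
def EL (f : ℝ → ℝ) : Prop :=
  ∃ (e : ℤ) (c : ℝ), 0 < c ∧ Tendsto (fun t => f t / t ^ (2 * e)) atTop (𝓝 c)

theorem EL.congr {f g : ℝ → ℝ} (hf : EL f) (h : f =ᶠ[atTop] g) : EL g := by
  obtain ⟨e, c, hc, h1⟩ := hf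
  exact ⟨e, c, hc, h1.congr' (h.mono fun t ht => by simp only [ht])⟩

theorem EL.mul {f g : ℝ → ℝ} (hf : EL f) (hg : EL g) : EL fun t => f t * g t := by
  obtain ⟨e, c, hc, h1⟩ := hf
  obtain ⟨e', c', hc', h2⟩ := hg
  refine ⟨e + e', c * c', mul_pos hc hc', (h1.mul h2).congr' ?_⟩
  filter_upwards [eventually_gt_atTop (0 : ℝ)] with t ht
  rw [mul_add, zpow_add₀ ht.ne', div_mul_div_comm]

theorem EL.inv {f : ℝ → ℝ} (hf : EL f) : EL fun t => (f t)⁻¹ := by
  obtain ⟨e, c, hc, h1⟩ := hf
  refine ⟨-e, c⁻¹, inv_pos.2 hc, (h1.inv₀ hc.ne').congr' ?_⟩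
  filter_upwards [eventually_gt_atTop (0 : ℝ)] with t ht
  rw [inv_div, mul_neg, zpow_neg, div_inv_eq_mul, div_eq_mul_inv, mul_comm]

theorem EL.div {f g : ℝ → ℝ} (hf : EL f) (hg : EL g) : EL fun t => f t / g t := by
  simp only [div_eq_mul_inv]
  exact hf.mul hg.inv

theorem EL.add_aux {f g : ℝ → ℝ} {e e' : ℤ} {c c' : ℝ} (hc : 0 < c) (hc' : 0 < c')
    (hf : Tendsto (fun t => f t / t ^ (2 * e)) atTop (𝓝 c))
    (hg : Tendsto (fun t => g t / t ^ (2 * e')) atTop (𝓝 c')) (h : e' ≤ e) :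
    EL fun t => f t + g t := by
  have h1 : (fun t : ℝ => f t / t ^ (2 * e) + g t / t ^ (2 * e') * t ^ (2 * (e' - e))) =ᶠ[atTop]
      fun t => (f t + g t) / t ^ (2 * e) := by
    filter_upwards [eventually_gt_atTop (0 : ℝ)] with t ht
    rw [mul_sub, zpow_sub₀ ht.ne', add_div]
    have h2 : t ^ (2 * e') ≠ 0 := zpow_ne_zero _ ht.ne'
    have h3 : t ^ (2 * e) ≠ 0 := zpow_ne_zero _ ht.ne'
    field_simp
  rcases h.eq_or_lt with rfl | h
  · refine ⟨e', c + c', add_pos hc hc', Tendsto.congr' h1 ?_⟩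
    simpa using hf.add hg
  · refine ⟨e, c, hc, Tendsto.congr' h1 ?_⟩
    have h2 : Tendsto (fun t : ℝ => t ^ (2 * (e' - e))) atTop (𝓝 0) :=
      tendsto_zpow_atTop_zero (by omega)
    simpa using hf.add (hg.mul h2)

theorem EL.add {f g : ℝ → ℝ} (hf : EL f) (hg : EL g) : EL fun t => f t + g t := by
  obtain ⟨e, c, hc, h1⟩ := hf
  obtain ⟨e', c', hc', h2⟩ := hg
  rcases le_total e' e with h | h
  · exact EL.add_aux hc hc' h1 h2 h
  · have := EL.add_aux hc' hc h2 h1 h
    exact this.congr (Eventually.of_forall fun t => add_comm _ _)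

/-- Zero or `EL`. -/
def EZ (f : ℝ → ℝ) : Prop := (f =ᶠ[atTop] fun _ => 0) ∨ EL f

theorem EZ.add {f g : ℝ → ℝ} (hf : EZ f) (hg : EZ g) : EZ fun t => f t + g t := by
  rcases hf with hf | hf
  · rcases hg with hg | hg
    · left
      filter_upwards [hf, hg] with t h1 h2
      rw [h1, h2, add_zero]
    · right
      refine hg.congr ?_
      filter_upwards [hf] with t h1
      rw [h1, zero_add]
  · rcases hg with hg | hg
    · right
      refine hf.congr ?_
      filter_upwards [hg] with t h1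
      rw [h1, add_zero]
    · exact Or.inr (hf.add hg)

theorem EL.add_EZ {f g : ℝ → ℝ} (hf : EL f) (hg : EZ g) : EL fun t => f t + g t := by
  rcases hg with hg | hg
  · refine hf.congr ?_
    filter_upwards [hg] with t h1
    rw [h1, add_zero]
  · exact hf.add hg

theorem EZ.mul {f g : ℝ → ℝ} (hf : EZ f) (hg : EZ g) : EZ fun t => f t * g t := by
  rcases hf with hf | hf
  · left
    filter_upwards [hf] with t h1
    rw [h1, zero_mul]
  · rcases hg with hg | hg
    · left
      filter_upwards [hg] with t h1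
      rw [h1, mul_zero]
    · exact Or.inr (hf.mul hg)

theorem EZ.sum {α : Type} (S : Finset α) (f : α → ℝ → ℝ) (h : ∀ i ∈ S, EZ (f i)) :
    EZ fun t => ∑ i ∈ S, f i t := by
  classical
  induction S using Finset.induction_on with
  | empty => exact Or.inl (Eventually.of_forall fun t => by simp)
  | insert i S hi ih =>
    simp only [Finset.sum_insert hi]
    exact (h i (Finset.mem_insert_self _ _)).add (ih fun k hk => h k (Finset.mem_insert_of_mem hk))

theorem EL_sum {α : Type} (S : Finset α) (f : α → ℝ → ℝ) (h : ∀ i ∈ S, EZ (f i)) (i₀ : α)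
    (h0 : i₀ ∈ S) (h1 : EL (f i₀)) : EL fun t => ∑ i ∈ S, f i t := by
  classical
  have h2 := h1.add_EZ (EZ.sum (S.erase i₀) f fun i hi => h i (Finset.mem_of_mem_erase hi))
  exact h2.congr (Eventually.of_forall fun t => Finset.add_sum_erase S (fun i => f i t) h0)

theorem EL_prod {α : Type} (S : Finset α) (f : α → ℝ → ℝ) (h : ∀ i ∈ S, EL (f i)) :
    EL fun t => ∏ i ∈ S, f i t := by
  classical
  induction S using Finset.induction_on with
  | empty =>
    refine ⟨0, 1, one_pos, ?_⟩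
    simp
  | insert i S hi ih =>
    simp only [Finset.prod_insert hi]
    exact (h i (Finset.mem_insert_self _ _)).mul (ih fun k hk => h k (Finset.mem_insert_of_mem hk))

theorem EL_poly {P : ℝ[X]} (h : 0 < P.leadingCoeff) (h' : Even P.natDegree) :
    EL fun t => P.eval t := by
  obtain ⟨m, hm⟩ := h'
  refine ⟨m, P.leadingCoeff, h, ?_⟩
  have h1 := P.isEquivalent_atTop_lead
  have h2 : Tendsto (fun t : ℝ => P.eval t / (P.leadingCoeff * t ^ P.natDegree)) atTop (𝓝 1) := by
    refine (Asymptotics.isEquivalent_iff_tendsto_one ?_).1 h1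
    filter_upwards [eventually_gt_atTop (0 : ℝ)] with t ht
    exact mul_ne_zero h.ne' (pow_ne_zero _ ht.ne')
  have h3 := h2.mul_const P.leadingCoeff
  rw [one_mul] at h3
  refine h3.congr' ?_
  filter_upwards [eventually_gt_atTop (0 : ℝ)] with t ht
  have h4 : t ^ (2 * (m : ℤ)) = t ^ P.natDegree := by
    rw [hm, ← zpow_natCast]
    congr 1
    push_cast
    ring
  rw [h4]
  have h5 : t ^ P.natDegree ≠ 0 := pow_ne_zero _ ht.ne'
  field_simp

/-- A polynomial which is `EL` has even degree. -/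
theorem EL.even {P : ℝ[X]} (h : EL fun t => P.eval t) : 0 < P.leadingCoeff ∧ Even P.natDegree := by
  obtain ⟨e, c, hc, h1⟩ := h
  have hP : P ≠ 0 := by
    rintro rfl
    simp only [eval_zero, zero_div] at h1
    exact hc.ne (tendsto_nhds_unique tendsto_const_nhds h1)
  have hl : P.leadingCoeff ≠ 0 := leadingCoeff_ne_zero.2 hP
  have h2 : Tendsto (fun t : ℝ => P.eval t / (P.leadingCoeff * t ^ P.natDegree)) atTop (𝓝 1) := by
    refine (Asymptotics.isEquivalent_iff_tendsto_one ?_).1 P.isEquivalent_atTop_lead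
    filter_upwards [eventually_gt_atTop (0 : ℝ)] with t ht
    exact mul_ne_zero hl (pow_ne_zero _ ht.ne')
  have h3 : Tendsto (fun t : ℝ => t ^ ((P.natDegree : ℤ) - 2 * e)) atTop (𝓝 (c / P.leadingCoeff)) := by
    have h4 := (h1.div h2 one_ne_zero).div_const P.leadingCoeff
    rw [div_one] at h4
    refine h4.congr' ?_
    have h5 : ∀ᶠ t in atTop, P.eval t ≠ 0 := by
      rcases lt_or_gt_of_ne hl with h6 | h6
      · have := eventually_pos (P := -P) (by rw [leadingCoeff_neg]; linarith)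
        refine this.mono fun t ht h0 => ?_
        rw [eval_neg, h0, neg_zero] at ht
        exact lt_irrefl _ ht
      · exact (eventually_pos h6).mono fun t ht => ht.ne'
    filter_upwards [eventually_gt_atTop (0 : ℝ), h5] with t ht h5
    simp only [Pi.div_apply]
    rw [zpow_sub₀ ht.ne', zpow_natCast]
    have h6 : t ^ P.natDegree ≠ 0 := pow_ne_zero _ ht.ne'
    have h7 : t ^ (2 * e) ≠ 0 := zpow_ne_zero _ ht.ne'
    field_simp
  have hd : (P.natDegree : ℤ) = 2 * e := by
    rcases lt_trichotomy ((P.natDegree : ℤ) - 2 * e) 0 with h4 | h4 | h4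
    · have h5 : Tendsto (fun t : ℝ => t ^ ((P.natDegree : ℤ) - 2 * e)) atTop (𝓝 0) :=
        tendsto_zpow_atTop_zero h4
      exact absurd (tendsto_nhds_unique h3 h5) (div_ne_zero hc.ne' hl)
    · omega
    · have h5 : Tendsto (fun t : ℝ => t ^ ((P.natDegree : ℤ) - 2 * e)) atTop atTop :=
        tendsto_zpow_atTop_atTop h4
      exact absurd h3 (not_tendsto_nhds_of_tendsto_atTop h5 _)
  have hd2 : (P.natDegree : ℤ) - 2 * e = 0 := by omega
  rw [hd2] at h3
  simp only [zpow_zero] at h3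
  have h6 := tendsto_nhds_unique h3 tendsto_const_nhds
  have h7 : P.leadingCoeff = c := by
    rw [div_eq_one_iff_eq hl] at h6
    exact h6.symm
  refine ⟨h7 ▸ hc, ?_⟩
  have : Even ((P.natDegree : ℕ) : ℤ) := ⟨e, by rw [hd]; ring⟩
  exact_mod_cast this

end Pool.Agent.V7H36.NR
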