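import Mathlib
import Pool.Agent.V7H36.NR.Even

/-!
# Termination of the flips between varieties with stringy Betti numbers
-/

set_option autoImplicit false

open Polynomial Filter Topology

namespace Pool.Agent.V7H36.NR

/-- The local factor. -/
noncomputable def phi (a t : ℝ) : ℝ := (t ^ 2 - 1) / (t ^ (2 * (a + 1)) - 1)

theorem exists_nat {a : ℝ} (ha : -1 < a) (h : ∃ n : ℤ, a = n) :
    ∃ m : ℕ, 0 < m ∧ ∀ t : ℝ, t ^ (2 * (a + 1)) = t ^ (2 * m) := by
  obtain ⟨n, rfl⟩ := h
  have h1 : (-1 : ℤ) < n := by exact_mod_cast ha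
  obtain ⟨m, hm⟩ := Int.eq_ofNat_of_zero_le (a := n + 1) (by omega)
  refine ⟨m, by omega, fun t => ?_⟩
  have h2 : (2 : ℝ) * ((n : ℝ) + 1) = ((2 * m : ℕ) : ℝ) := by
    have : ((n + 1 : ℤ) : ℝ) = ((m : ℤ) : ℝ) := by rw [hm]
    push_cast at this ⊢
    rw [this]
  rw [h2, Real.rpow_natCast]

theorem EL_pow_sub {m n : ℕ} (h : n < m) : EL fun t => t ^ (2 * m) - t ^ (2 * n) := by
  have h1 : (X ^ (2 * m) - X ^ (2 * n) : ℝ[X]).natDegree = 2 * m := by
    rw [natDegree_sub_eq_left_of_natDegree_lt] <;> simp <;> omega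
  have h2 : (X ^ (2 * m) - X ^ (2 * n) : ℝ[X]).leadingCoeff = 1 := by
    rw [leadingCoeff, h1, coeff_sub, coeff_X_pow_self, coeff_X_pow, if_neg (by omega), sub_zero]
  have h3 := EL_poly (P := X ^ (2 * m) - X ^ (2 * n)) (by rw [h2]; exact one_pos)
    (by rw [h1]; exact even_two_mul m)
  refine h3.congr (Eventually.of_forall fun t => ?_)
  simp

theorem EL_pow_sub_one {m : ℕ} (h : 0 < m) : EL fun t => t ^ (2 * m) - 1 := by
  refine (EL_pow_sub h).congr (Eventually.of_forall fun t => ?_)
  simp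

theorem EL_phi {a : ℝ} (ha : -1 < a) (h : ∃ n : ℤ, a = n) : EL (phi a) := by
  obtain ⟨m, hm, hm'⟩ := exists_nat ha h
  refine ((EL_pow_sub_one one_pos).div (EL_pow_sub_one hm)).congr (Eventually.of_forall fun t => ?_)
  simp only [phi, hm', mul_one]

theorem EL_phi_sub {a a' : ℝ} (ha : -1 < a) (haa : a < a') (h : ∃ n : ℤ, a = n)
    (h' : ∃ n : ℤ, a' = n) : EL fun t => phi a t - phi a' t := by
  obtain ⟨m, hm, hm1⟩ := exists_nat ha h
  obtain ⟨m', hm', hm1'⟩ := exists_nat (ha.trans haa) h'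
  have hmm : m < m' := by
    have h1 := hm1 2
    have h2 := hm1' 2
    have h3 : (2 : ℝ) ^ (2 * (a + 1)) < (2 : ℝ) ^ (2 * (a' + 1)) :=
      Real.rpow_lt_rpow_of_exponent_lt one_lt_two (by linarith)
    rw [h1, h2] at h3
    have := (pow_lt_pow_iff_right₀ (one_lt_two : (1 : ℝ) < 2)).1 h3
    omega
  have h1 := ((EL_pow_sub_one one_pos).mul (EL_pow_sub hmm)).div
    ((EL_pow_sub_one hm).mul (EL_pow_sub_one hm'))
  refine h1.congr ?_
  filter_upwards [eventually_gt_atTop (1 : ℝ)] with t ht
  have h2 : t ^ (2 * m) - 1 ≠ 0 := (sub_pos.2 (one_lt_pow₀ ht (by omega))).ne'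
  have h3 : t ^ (2 * m') - 1 ≠ 0 := (sub_pos.2 (one_lt_pow₀ ht (by omega))).ne'
  simp only [phi, hm1, hm1', mul_one]
  field_simp
  ring

theorem EZ_phi_sub {a a' : ℝ} (ha : -1 < a) (haa : a ≤ a') (h : ∃ n : ℤ, a = n)
    (h' : ∃ n : ℤ, a' = n) : EZ fun t => phi a t - phi a' t := by
  rcases haa.eq_or_lt with rfl | haa
  · exact Or.inl (Eventually.of_forall fun t => sub_self _)
  · exact Or.inr (EL_phi_sub ha haa h h')

theorem EZ_prod_sub {ι : Type} (S : Finset ι) (a a' : ι → ℝ) (h : ∀ j, -1 < a j ∧ a j ≤ a' j)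
    (hi : ∀ j, (∃ n : ℤ, a j = n) ∧ ∃ n : ℤ, a' j = n) :
    EZ fun t => ∏ j ∈ S, phi (a j) t - ∏ j ∈ S, phi (a' j) t := by
  classical
  induction S using Finset.induction_on with
  | empty => exact Or.inl (Eventually.of_forall fun t => by simp)
  | insert i S hiS ih =>
    have h1 : EZ fun t => phi (a i) t * (∏ j ∈ S, phi (a j) t - ∏ j ∈ S, phi (a' j) t) +
        (phi (a i) t - phi (a' i) t) * ∏ j ∈ S, phi (a' j) t := by
      refine EZ.add (EZ.mul (Or.inr (EL_phi (h i).1 (hi i).1)) ih)
        (EZ.mul (EZ_phi_sub (h i).1 (h i).2 (hi i).1 (hi i).2) (Or.inr (EL_prod _ _ fun j _ => ?_)))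
      exact EL_phi ((h j).1.trans_le (h j).2) (hi j).2
    have h2 : (fun t => phi (a i) t * (∏ j ∈ S, phi (a j) t - ∏ j ∈ S, phi (a' j) t) +
        (phi (a i) t - phi (a' i) t) * ∏ j ∈ S, phi (a' j) t) =
        fun t => ∏ j ∈ insert i S, phi (a j) t - ∏ j ∈ insert i S, phi (a' j) t := by
      funext t
      rw [Finset.prod_insert hiS, Finset.prod_insert hiS]
      ring
    rwa [h2] at h1

theorem EL_stringy_sub (s : Strata) (a a' : s.ι → ℝ) (h : ∀ j, -1 < a j ∧ a j ≤ a' j)
    (h' : ∃ j, a j < a' j) (hi : ∀ j, (∃ n : ℤ, a j = n) ∧ ∃ n : ℤ, a' j = n) :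
    EL fun t => stringy s a t - stringy s a' t := by
  obtain ⟨j₀, hj₀⟩ := h'
  have h0 : (fun t => stringy s a t - stringy s a' t) = fun t => ∑ J : Finset s.ι,
      ((s.P J).map (Int.castRingHom ℝ)).eval t *
        (∏ j ∈ J, phi (a j) t - ∏ j ∈ J, phi (a' j) t) := by
    funext t
    simp only [stringy, phi, mul_sub, Finset.sum_sub_distrib]
  rw [h0]
  have hP : ∀ J, s.P J ≠ 0 → EL fun t => ((s.P J).map (Int.castRingHom ℝ)).eval t := by
    intro J hJ
    have h1 := (s.lead J).resolve_left hJ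
    refine EL_poly ?_ ?_
    · rw [leadingCoeff_map_of_injective (Int.castRingHom ℝ).injective_int]
      simpa using h1
    · rw [natDegree_map_eq_of_injective (Int.castRingHom ℝ).injective_int]
      exact s.even J
  refine EL_sum _ _ (fun J _ => ?_) {j₀} (Finset.mem_univ _) ?_
  · refine EZ.mul ?_ (EZ_prod_sub J a a' h hi)
    by_cases hJ : s.P J = 0
    · left
      rw [hJ]
      exact Eventually.of_forall fun t => by simp
    · exact Or.inr (hP J hJ)
  · refine (hP _ (s.single j₀)).mul ?_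
    refine (EL_phi_sub (h j₀).1 hj₀ (hi j₀).1 (hi j₀).2).congr (Eventually.of_forall fun t => ?_)
    simp

/-- The descent. -/
theorem no_descent (Q : ℕ → ℤ[X]) (hQ : ∀ i k, 0 ≤ (Q i).coeff (2 * k))
    (hd : ∀ i, 0 < (Q i - Q (i + 1)).leadingCoeff ∧ Even (Q i - Q (i + 1)).natDegree) : False := by
  have hN : ∀ i, (Q i).natDegree ≤ (Q 0).natDegree := by
    intro i
    induction i with
    | zero => exact le_rfl
    | succ i ih =>
      refine le_trans ?_ ih
      by_contra hlt
      push Not at hlt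
      have h1 : (Q i - Q (i + 1)).natDegree = (Q (i + 1)).natDegree :=
        natDegree_sub_eq_right_of_natDegree_lt hlt
      obtain ⟨h2, h3⟩ := hd i
      rw [leadingCoeff, h1, coeff_sub, coeff_eq_zero_of_natDegree_lt hlt, zero_sub] at h2
      rw [h1] at h3
      obtain ⟨k, hk⟩ := h3
      have h4 := hQ (i + 1) k
      rw [show 2 * k = (Q (i + 1)).natDegree by omega] at h4
      omega
  set N := (Q 0).natDegree with hNdef
  have key : ∀ k ≤ N + 1, ∃ i₀, ∀ i ≥ i₀, ∀ m ≥ N + 1 - k, (Q i).coeff m = (Q (i + 1)).coeff m := by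
    intro k
    induction k with
    | zero =>
      intro _
      refine ⟨0, fun i _ m hm => ?_⟩
      rw [coeff_eq_zero_of_natDegree_lt, coeff_eq_zero_of_natDegree_lt]
      · have := hN (i + 1)
        omega
      · have := hN i
        omega
    | succ k ih =>
      intro hk
      obtain ⟨i₀, h0⟩ := ih (by omega)
      have h1 : ∀ i ≥ i₀, (Q i).coeff (N - k) ≠ (Q (i + 1)).coeff (N - k) →
          Even (N - k) ∧ (Q (i + 1)).coeff (N - k) < (Q i).coeff (N - k) := by
        intro i hi hne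
        have h2 : (Q i - Q (i + 1)).natDegree = N - k := by
          refine le_antisymm ?_ (le_natDegree_of_ne_zero ?_)
          · rw [natDegree_le_iff_coeff_eq_zero]
            intro m hm
            rw [coeff_sub, h0 i hi m (by omega), sub_self]
          · rw [coeff_sub]
            exact sub_ne_zero.2 hne
        obtain ⟨h3, h4⟩ := hd i
        rw [leadingCoeff, h2, coeff_sub] at h3
        rw [h2] at h4
        exact ⟨h4, by omega⟩
      have h5 : ∃ i₁ ≥ i₀, ∀ i ≥ i₁, (Q i).coeff (N - k) = (Q (i + 1)).coeff (N - k) := by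
        by_cases he : Even (N - k)
        · obtain ⟨r, hr⟩ := he
          have hnn : ∀ i, 0 ≤ (Q i).coeff (N - k) := by
            intro i
            rw [show N - k = 2 * r by omega]
            exact hQ i r
          obtain ⟨i₁, hi₁, hmin⟩ := wellFounded_lt.has_min
            ((fun i => ((Q i).coeff (N - k)).toNat) '' Set.Ici i₀)
            ⟨_, i₀, Set.mem_Ici.2 le_rfl, rfl⟩
          obtain ⟨i₂, hi₂, rfl⟩ := hi₁
          refine ⟨i₂, hi₂, fun i hi => ?_⟩
          have hmono : ∀ j ≥ i₂, (Q j).coeff (N - k) ≤ (Q i₂).coeff (N - k) := by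
            intro j hj
            induction j, hj using Nat.le_induction with
            | base => exact le_rfl
            | succ j hj ihj =>
              by_cases hne : (Q j).coeff (N - k) = (Q (j + 1)).coeff (N - k)
              · rw [← hne]
                exact ihj
              · exact (h1 j (le_trans hi₂ hj) hne).2.le.trans ihj
          have hge : ∀ j ≥ i₂, (Q i₂).coeff (N - k) ≤ (Q j).coeff (N - k) := by
            intro j hj
            have h6 := hmin _ ⟨j, le_trans hi₂ hj, rfl⟩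
            have h7 := hnn j
            have h8 := hnn i₂
            simp only [not_lt] at h6
            omega
          have h9 := hmono i hi
          have h10 := hge i hi
          have h11 := hmono (i + 1) (by omega)
          have h12 := hge (i + 1) (by omega)
          omega
        · refine ⟨i₀, le_rfl, fun i hi => ?_⟩
          by_contra hne
          exact he (h1 i hi hne).1
      obtain ⟨i₁, hi₁, h6⟩ := h5
      refine ⟨i₁, fun i hi m hm => ?_⟩
      rcases Nat.lt_or_ge m (N + 1 - k) with h7 | h7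
      · rw [show m = N - k by omega]
        exact h6 i hi
      · exact h0 i (le_trans hi₁ hi) m h7
  obtain ⟨i₀, h0⟩ := key (N + 1) le_rfl
  have h1 : Q i₀ = Q (i₀ + 1) := by
    ext m
    exact h0 i₀ le_rfl m (by omega)
  have h2 := (hd i₀).1
  rw [h1, sub_self, leadingCoeff_zero] at h2
  exact lt_irrefl _ h2

variable {B : Birational}

/-- Flips between varieties with stringy Betti numbers terminate. -/
theorem betti_terminates (hB : IsBirational B) {X : ℕ → B.V}
    {f : ∀ i, B.Small (X i) (X (i + 1))} (h : ∀ L, IsSequence B L X (fun _ => 0) f)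
    (hX : ∀ i, HasStringyBettiNumbers B (X i)) : False := by
  choose hG Q hQ hE using hX
  refine no_descent Q hQ fun i => ?_
  have hk := (h (i + 1)).klt_all hB i (by omega)
  have hs := (h (i + 1)).step i (by omega)
  obtain ⟨s, a, a', h1, h2, h3, h4, h5⟩ := hB.flip (f i) 0 hk ((h (i + 1)).flip i (by omega))
  have h6 := EL_stringy_sub s a a' h1 h2 (h5 rfl (hG i) (hG (i + 1)))
  have h7 : EL fun t => ((Q i - Q (i + 1)).map (Int.castRingHom ℝ)).eval t := by
    refine h6.congr ?_
    filter_upwards [eventually_gt_atTop (1 : ℝ)] with t ht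
    rw [← h3 t ht, ← h4 t ht, Polynomial.map_sub, eval_sub, ← hE i t ht, ← hE (i + 1) t ht]
    congr 2
    exact hs.symm
  obtain ⟨h8, h9⟩ := h7.even
  rw [leadingCoeff_map_of_injective (Int.castRingHom ℝ).injective_int] at h8
  rw [natDegree_map_eq_of_injective (Int.castRingHom ℝ).injective_int] at h9
  exact ⟨by simpa using h8, h9⟩

end Pool.Agent.V7H36.NR
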